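import Mathlib

/-! Counting connected sets of `k` vertices in a tree: growth, stars, paths. -/

set_option autoImplicit false

open Finset SimpleGraph

namespace Pool.Agent.Helper1K9.TreeProfile

variable {V : Type} [Fintype V] [DecidableEq V] (G : SimpleGraph V) [DecidableRel G.Adj]

/-- `U` induces a connected subgraph. -/
def Conn (U : Finset V) : Prop := (G.induce (U : Set V)).Connected

theorem exists_cross {U : Finset V} (hU : Conn G U) (A : Set V) {a b : V} (ha : a ∈ U)
    (haA : a ∈ A) (hb : b ∈ U) (hbA : b ∉ A) :
    ∃ x ∈ U, ∃ y ∈ U, x ∈ A ∧ y ∉ A ∧ G.Adj x y := by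
  obtain ⟨p⟩ := hU.preconnected ⟨a, ha⟩ ⟨b, hb⟩
  obtain ⟨d, hd, h1, h2⟩ := p.exists_boundary_dart {x | (x : V) ∈ A} haA hbA
  refine ⟨d.fst, d.fst.2, d.snd, d.snd.2, h1, h2, ?_⟩
  have := d.adj
  simpa using this

open Classical in
/-- Connected sets containing `A`, with `|A| + j` elements, all of degree at most `D`. -/
noncomputable def fam (D : ℕ) (A : Finset V) (j : ℕ) : Finset (Finset V) :=
  univ.filter fun U => A ⊆ U ∧ U.card = A.card + j ∧ Conn G U ∧ ∀ u ∈ U, G.degree u ≤ D

theorem card_fam {K D : ℕ} : ∀ (j : ℕ) (A : Finset V), A.Nonempty → A.card + j ≤ K →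
    (fam G D A j).card ≤ (K * D) ^ j := by
  classical
  intro j
  induction j with
  | zero =>
    intro A hA hK
    have : fam G D A 0 ⊆ {A} := by
      intro U hU
      simp only [fam, mem_filter, mem_univ, true_and] at hU
      rw [mem_singleton]
      exact (eq_of_subset_of_card_le hU.1 (by omega)).symm
    simpa using card_le_card this
  | succ j ih =>
    intro A hA hK
    have hsub : fam G D A (j + 1) ⊆ (A.filter fun a => G.degree a ≤ D).biUnion
        (fun a => ((G.neighborFinset a).filter (· ∉ A)).biUnion
          (fun x => fam G D (insert x A) j)) := by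
      intro U hU
      simp only [fam, mem_filter, mem_univ, true_and] at hU
      obtain ⟨h1, h2, h3, h4⟩ := hU
      obtain ⟨a0, ha0⟩ := hA
      have hlt : A.card < U.card := by omega
      obtain ⟨b, hbU, hbA⟩ := exists_mem_notMem_of_card_lt_card hlt
      obtain ⟨x, hx, y, hy, hxA, hyA, hadj⟩ :=
        exists_cross G h3 (A : Set V) (h1 ha0) ha0 hbU hbA
      have hxA' : x ∈ A := hxA
      have hyA' : y ∉ A := hyA
      simp only [mem_biUnion, mem_filter, mem_neighborFinset]
      refine ⟨x, ⟨hxA', h4 x hx⟩, y, ⟨hadj, hyA'⟩, ?_⟩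
      simp only [fam, mem_filter, mem_univ, true_and]
      refine ⟨insert_subset hy h1, ?_, h3, h4⟩
      rw [card_insert_of_notMem hyA']
      omega
    refine (card_le_card hsub).trans ?_
    refine card_biUnion_le.trans ?_
    have hb : ∀ a ∈ A.filter (fun a => G.degree a ≤ D),
        (((G.neighborFinset a).filter (· ∉ A)).biUnion
          (fun x => fam G D (insert x A) j)).card ≤ D * (K * D) ^ j := by
      intro a ha
      rw [mem_filter] at ha
      refine card_biUnion_le.trans ?_
      have : ∀ x ∈ (G.neighborFinset a).filter (· ∉ A),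
          (fam G D (insert x A) j).card ≤ (K * D) ^ j := by
        intro x hx
        rw [mem_filter] at hx
        apply ih _ (insert_nonempty _ _)
        rw [card_insert_of_notMem hx.2]
        omega
      refine (sum_le_card_nsmul _ _ _ this).trans ?_
      rw [smul_eq_mul]
      apply Nat.mul_le_mul_right
      refine (card_filter_le _ _).trans ?_
      rw [card_neighborFinset_eq_degree]
      exact ha.2
    refine (sum_le_card_nsmul _ _ _ hb).trans ?_
    rw [smul_eq_mul]
    calc (A.filter fun a => G.degree a ≤ D).card * (D * (K * D) ^ j)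
        ≤ K * (D * (K * D) ^ j) := by
          apply Nat.mul_le_mul_right
          refine (card_filter_le _ _).trans ?_
          omega
      _ = (K * D) ^ (j + 1) := by ring

open Classical in
/-- The connected sets with `k` elements. -/
noncomputable def connSets (k : ℕ) : Finset (Finset V) :=
  univ.filter fun U => U.card = k ∧ Conn G U

open Classical in
/-- The sets with `k` elements having an element adjacent to all the other ones. -/
noncomputable def starSets (k : ℕ) : Finset (Finset V) :=
  univ.filter fun U => U.card = k ∧ ∃ w ∈ U, ∀ u ∈ U, u ≠ w → G.Adj w u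

open Classical in
/-- The sets inducing a path with `k` vertices. -/
noncomputable def pathSets (k : ℕ) : Finset (Finset V) :=
  univ.filter fun U => Nonempty (G.induce (U : Set V) ≃g pathGraph k)

open Classical in
/-- Case A. -/
noncomputable def famA (k m : ℕ) : Finset (Finset V) :=
  univ.biUnion fun w => ((G.neighborFinset w).filter fun y => m * G.degree y ≤ G.degree w).biUnion
    fun y => ((G.neighborFinset y).filter fun z => z ≠ w).biUnion
      fun z => fam G (G.degree w) {w, y, z} (k - 3)

open Classical in
/-- Case B. -/
noncomputable def famB (k m : ℕ) : Finset (Finset V) :=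
  univ.biUnion fun w => ((G.neighborFinset w).filter fun y => G.degree w < m * G.degree y).biUnion
    fun y => fam G (G.degree w) {w, y} (k - 2)

theorem connSets_subset (k m : ℕ) (hk : 3 ≤ k) :
    connSets G k ⊆ starSets G k ∪ (famA G k m ∪ famB G k m) := by
  classical
  intro U hU
  simp only [connSets, mem_filter, mem_univ, true_and] at hU
  obtain ⟨hcard, hconn⟩ := hU
  have hne : U.Nonempty := by
    rw [← card_pos]; omega
  obtain ⟨w, hw, hmax⟩ := exists_max_image U (fun u => G.degree u) hne
  by_cases hs : ∃ w ∈ U, ∀ u ∈ U, u ≠ w → G.Adj w u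
  · rw [mem_union]; left
    simp only [starSets, mem_filter, mem_univ, true_and]
    exact ⟨hcard, hs⟩
  · rw [mem_union]; right
    push Not at hs
    obtain ⟨u, hu, huw, hnadj⟩ := hs w hw
    obtain ⟨y, hy, z, hz, hyA, hzA, hadj⟩ :=
      exists_cross G hconn {x : V | x = w ∨ G.Adj w x} hw (Or.inl rfl) hu
        (by simp only [Set.mem_setOf_eq, not_or]; exact ⟨huw, hnadj⟩)
    simp only [Set.mem_setOf_eq, not_or] at hyA hzA
    have hwy : G.Adj w y := by
      rcases hyA with rfl | h
      · exact absurd hadj hzA.2
      · exact h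
    have hyw : w ≠ y := hwy.ne
    have hyz : y ≠ z := hadj.ne
    have hzw : z ≠ w := hzA.1
    rw [mem_union]
    by_cases hm : m * G.degree y ≤ G.degree w
    · left
      simp only [famA, mem_biUnion, mem_univ, true_and, mem_filter, mem_neighborFinset]
      refine ⟨w, y, ⟨hwy, hm⟩, z, ⟨hadj, hzw⟩, ?_⟩
      simp only [fam, mem_filter, mem_univ, true_and]
      refine ⟨?_, ?_, hconn, hmax⟩
      · intro x hx
        simp only [mem_insert, mem_singleton] at hx
        rcases hx with rfl | rfl | rfl <;> assumption
      · rw [card_insert_of_notMem (by simp [hyw, hzw.symm]), card_insert_of_notMem (by simp [hyz]),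
          card_singleton]
        omega
    · right
      simp only [famB, mem_biUnion, mem_univ, true_and, mem_filter, mem_neighborFinset]
      refine ⟨w, y, ⟨hwy, by omega⟩, ?_⟩
      simp only [fam, mem_filter, mem_univ, true_and]
      refine ⟨?_, ?_, hconn, hmax⟩
      · intro x hx
        simp only [mem_insert, mem_singleton] at hx
        rcases hx with rfl | rfl <;> assumption
      · rw [card_insert_of_notMem (by simp [hyw]), card_singleton]
        omega

theorem card_famA (k m : ℕ) (hk : 3 ≤ k) :
    m * (famA G k m).card ≤ k ^ (k - 3) * ∑ w, G.degree w ^ (k - 1) := by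
  classical
  have h1 : (famA G k m).card ≤ ∑ w, ∑ y ∈ (G.neighborFinset w).filter
      (fun y => m * G.degree y ≤ G.degree w), G.degree y * (k * G.degree w) ^ (k - 3) := by
    unfold famA
    refine card_biUnion_le.trans (sum_le_sum fun w _ => ?_)
    refine card_biUnion_le.trans (sum_le_sum fun y hy => ?_)
    rw [mem_filter, mem_neighborFinset] at hy
    refine card_biUnion_le.trans ?_
    have : ∀ z ∈ (G.neighborFinset y).filter (fun z => z ≠ w),
        (fam G (G.degree w) {w, y, z} (k - 3)).card ≤ (k * G.degree w) ^ (k - 3) := by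
      intro z hz
      rw [mem_filter, mem_neighborFinset] at hz
      apply card_fam G
      · exact insert_nonempty _ _
      · have : ({w, y, z} : Finset V).card ≤ 3 := card_le_three
        omega
    refine (sum_le_card_nsmul _ _ _ this).trans ?_
    rw [smul_eq_mul]
    apply Nat.mul_le_mul_right
    refine (card_filter_le _ _).trans ?_
    rw [card_neighborFinset_eq_degree]
  calc m * (famA G k m).card
      ≤ m * ∑ w, ∑ y ∈ (G.neighborFinset w).filter
        (fun y => m * G.degree y ≤ G.degree w), G.degree y * (k * G.degree w) ^ (k - 3) :=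
        Nat.mul_le_mul_left _ h1
    _ = ∑ w, ∑ y ∈ (G.neighborFinset w).filter
        (fun y => m * G.degree y ≤ G.degree w), (m * G.degree y) * (k * G.degree w) ^ (k - 3) := by
        rw [mul_sum]
        refine sum_congr rfl fun w _ => ?_
        rw [mul_sum]
        refine sum_congr rfl fun y _ => ?_
        ring
    _ ≤ ∑ w, G.degree w * (G.degree w * (k * G.degree w) ^ (k - 3)) := by
        refine sum_le_sum fun w _ => ?_
        have : ∀ y ∈ (G.neighborFinset w).filter (fun y => m * G.degree y ≤ G.degree w),
            (m * G.degree y) * (k * G.degree w) ^ (k - 3)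
              ≤ G.degree w * (k * G.degree w) ^ (k - 3) := by
          intro y hy
          rw [mem_filter] at hy
          exact Nat.mul_le_mul_right _ hy.2
        refine (sum_le_card_nsmul _ _ _ this).trans ?_
        rw [smul_eq_mul]
        apply Nat.mul_le_mul_right
        refine (card_filter_le _ _).trans ?_
        rw [card_neighborFinset_eq_degree]
    _ = k ^ (k - 3) * ∑ w, G.degree w ^ (k - 1) := by
        rw [mul_sum]
        refine sum_congr rfl fun w _ => ?_
        obtain ⟨j, rfl⟩ : ∃ j, k = j + 3 := ⟨k - 3, by omega⟩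
        simp only [Nat.add_sub_cancel]
        have : j + 3 - 1 = j + 2 := by omega
        rw [this, mul_pow]
        ring

variable {G}

/-- In a tree, a vertex has at most one neighbour which is closer to the root. -/
theorem parent_unique (hG : G.IsTree) (r w : V) {y y' : V} (hy : G.Adj w y) (hy' : G.Adj w y')
    (h : G.dist r w = G.dist r y + 1) (h' : G.dist r w = G.dist r y' + 1) : y = y' := by
  obtain ⟨q, hq, hql⟩ := (hG.connected r w).exists_path_of_dist
  have key : ∀ y, G.Adj w y → G.dist r w = G.dist r y + 1 → y = q.penultimate := by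
    intro y hy h
    obtain ⟨p, hp, hpl⟩ := (hG.connected r y).exists_path_of_dist
    have hw : w ∉ p.support := by
      intro hw
      have h1 := dist_le (p.takeUntil w hw)
      have h2 := p.length_takeUntil_le_length hw
      omega
    have hyq : y ∈ q.support := by
      by_contra hyq
      exact hw (hG.isAcyclic.mem_support_of_ne_mem_support_of_adj_of_isPath hp hq hy.symm hyq)
    exact hG.isAcyclic.eq_penultimate_of_adj_end hq hy hyq
  rw [key y hy h, key y' hy' h']

theorem card_parent (hG : G.IsTree) (r w : V) :
    ((G.neighborFinset w).filter fun y => G.dist r w = G.dist r y + 1).card ≤ 1 := by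
  rw [card_le_one]
  intro a ha b hb
  rw [mem_filter, mem_neighborFinset] at ha hb
  exact parent_unique hG r w ha.1 hb.1 ha.2 hb.2

theorem card_famB (hG : G.IsTree) (k m : ℕ) (hk : 3 ≤ k) (hm : 1 ≤ m) :
    (famB G k m).card ≤ 2 * ∑ c, (k * (m * G.degree c)) ^ (k - 2) := by
  classical
  obtain ⟨r⟩ := hG.connected.nonempty
  have h1 : (famB G k m).card ≤ ∑ w, ∑ y ∈ (G.neighborFinset w).filter
      (fun y => G.degree w < m * G.degree y), (k * G.degree w) ^ (k - 2) := by
    unfold famB
    refine card_biUnion_le.trans (sum_le_sum fun w _ => ?_)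
    refine card_biUnion_le.trans (sum_le_sum fun y hy => ?_)
    apply card_fam G
    · exact insert_nonempty _ _
    · have : ({w, y} : Finset V).card ≤ 2 := card_le_two
      omega
  have h2 : ∑ w, ∑ y ∈ (G.neighborFinset w).filter
      (fun y => G.degree w < m * G.degree y), (k * G.degree w) ^ (k - 2) ≤
      (∑ w, ∑ y ∈ (G.neighborFinset w).filter (fun y => G.dist r w = G.dist r y + 1),
        (k * (m * G.degree w)) ^ (k - 2)) +
      ∑ w, ∑ y ∈ (G.neighborFinset w).filter (fun y => G.dist r y = G.dist r w + 1),
        (k * (m * G.degree y)) ^ (k - 2) := by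
    rw [← sum_add_distrib]
    refine sum_le_sum fun w _ => ?_
    rw [sum_filter, sum_filter, sum_filter, ← sum_add_distrib]
    refine sum_le_sum fun y hy => ?_
    rw [mem_neighborFinset] at hy
    split_ifs with ha hb hc hd
    · exact le_add_right (Nat.pow_le_pow_left (by nlinarith [Nat.zero_le (G.degree w)]) _)
    · simp only [add_zero]
      exact Nat.pow_le_pow_left (Nat.mul_le_mul_left _ (Nat.le_mul_of_pos_left _ hm)) _
    · simp only [zero_add]
      exact Nat.pow_le_pow_left (Nat.mul_le_mul_left _ ha.le) _
    · exfalso
      rcases hG.dist_eq_dist_add_one_of_adj r hy with h | h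
      · exact hb h
      · exact hd h
    all_goals positivity
  have h3 : ∑ w, ∑ y ∈ (G.neighborFinset w).filter (fun y => G.dist r w = G.dist r y + 1),
        (k * (m * G.degree w)) ^ (k - 2) ≤ ∑ c, (k * (m * G.degree c)) ^ (k - 2) := by
    refine sum_le_sum fun w _ => ?_
    rw [sum_const, smul_eq_mul]
    calc _ ≤ 1 * (k * (m * G.degree w)) ^ (k - 2) := Nat.mul_le_mul_right _ (card_parent hG r w)
      _ = _ := one_mul _
  have h4 : ∑ w, ∑ y ∈ (G.neighborFinset w).filter (fun y => G.dist r y = G.dist r w + 1),
        (k * (m * G.degree y)) ^ (k - 2) ≤ ∑ c, (k * (m * G.degree c)) ^ (k - 2) := by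
    have : ∑ w, ∑ y ∈ (G.neighborFinset w).filter (fun y => G.dist r y = G.dist r w + 1),
        (k * (m * G.degree y)) ^ (k - 2) =
        ∑ y, ∑ w ∈ (G.neighborFinset y).filter (fun w => G.dist r y = G.dist r w + 1),
        (k * (m * G.degree y)) ^ (k - 2) := by
      apply sum_comm'
      intro x y
      simp only [mem_univ, mem_filter, mem_neighborFinset, true_and, and_true, G.adj_comm]
    rw [this]
    refine sum_le_sum fun w _ => ?_
    rw [sum_const, smul_eq_mul]
    calc _ ≤ 1 * (k * (m * G.degree w)) ^ (k - 2) := Nat.mul_le_mul_right _ (card_parent hG r w)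
      _ = _ := one_mul _
  omega

end Pool.Agent.Helper1K9.TreeProfile
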