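import Pool.Agent.Helper1K9.TreeProfileA

/-! Stars and paths in a tree. -/

set_option autoImplicit false

open Finset SimpleGraph

namespace Pool.Agent.Helper1K9.TreeProfile

variable {V : Type} [Fintype V] [DecidableEq V] (G : SimpleGraph V) [DecidableRel G.Adj]

theorem sum_choose_le (k : ℕ) (hk : 1 ≤ k) :
    ∑ v, (G.degree v).choose (k - 1) ≤ k * (starSets G k).card := by
  classical
  have h1 : ∀ v, (G.degree v).choose (k - 1) ≤ ((starSets G k).filter fun U => v ∈ U).card := by
    intro v
    rw [← card_neighborFinset_eq_degree, ← card_powersetCard]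
    apply card_le_card_of_injOn (fun A => insert v A)
    · intro A hA
      rw [mem_coe, mem_powersetCard] at hA
      have hv : v ∉ A := fun h => by
        have := hA.1 h
        simp at this
      simp only [coe_filter, starSets, mem_filter, mem_univ, true_and, Set.mem_setOf_eq]
      refine ⟨⟨?_, v, mem_insert_self _ _, ?_⟩, mem_insert_self _ _⟩
      · rw [card_insert_of_notMem hv]; omega
      · intro u hu huv
        rcases mem_insert.1 hu with rfl | h
        · exact absurd rfl huv
        · simpa using hA.1 h
    · intro A hA B hB hAB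
      rw [mem_coe, mem_powersetCard] at hA hB
      have hvA : v ∉ A := fun h => by
        have := hA.1 h
        simp at this
      have hvB : v ∉ B := fun h => by
        have := hB.1 h
        simp at this
      have := congrArg (fun S => S.erase v) hAB
      simpa [erase_insert hvA, erase_insert hvB] using this
  refine (sum_le_sum fun v _ => h1 v).trans ?_
  simp only [card_eq_sum_ones, sum_filter]
  rw [sum_comm]
  rw [mul_comm, sum_mul]
  refine sum_le_sum fun U hU => ?_
  simp only [starSets, mem_filter, mem_univ, true_and] at hU
  rw [← sum_filter, ← card_eq_sum_ones]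
  have : (univ.filter fun v => v ∈ U) = U := by ext; simp
  rw [this, hU.1]
  simp

theorem card_le_paths (k : ℕ) (h : ∀ v, ∃ U ∈ pathSets G k, v ∈ U) :
    Fintype.card V ≤ k * (pathSets G k).card := by
  classical
  have hcard : ∀ U ∈ pathSets G k, U.card = k := by
    intro U hU
    simp only [pathSets, mem_filter, mem_univ, true_and] at hU
    obtain ⟨e⟩ := hU
    have := Fintype.card_congr e.toEquiv
    simpa using this
  calc Fintype.card V = (univ : Finset V).card := rfl
    _ ≤ ((pathSets G k).biUnion id).card := by
        apply card_le_card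
        intro v _
        obtain ⟨U, hU, hv⟩ := h v
        exact mem_biUnion.2 ⟨U, hU, hv⟩
    _ ≤ ∑ U ∈ pathSets G k, U.card := card_biUnion_le
    _ = k * (pathSets G k).card := by
        rw [sum_congr rfl hcard, sum_const, smul_eq_mul, mul_comm]

variable {G}

theorem dist_getVert (hG : G.Connected) {v u : V} (p : G.Walk v u) (hp : p.length = G.dist v u)
    (i : ℕ) (hi : i ≤ p.length) : G.dist v (p.getVert i) = i := by
  have h1 := dist_le (p.take i)
  rw [Walk.take_length, min_eq_left hi] at h1
  have h2 := dist_le (p.drop i)
  rw [Walk.drop_length] at h2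
  have h3 := hG.dist_triangle (u := v) (v := p.getVert i) (w := u)
  omega

theorem iso_of_injective {ι : Type} [Fintype ι] (H : SimpleGraph ι) (g : ι → V)
    (hinj : Function.Injective g) (hadj : ∀ i j, G.Adj (g i) (g j) ↔ H.Adj i j) :
    Nonempty (G.induce ((univ.map ⟨g, hinj⟩ : Finset V) : Set V) ≃g H) := by
  have hbij : Function.Bijective
      (fun i : ι => (⟨g i, by simp⟩ : ((univ.map ⟨g, hinj⟩ : Finset V) : Set V))) := by
    constructor
    · intro i j hij
      exact hinj (congrArg Subtype.val hij)
    · rintro ⟨x, hx⟩
      simp only [coe_map, coe_univ, Set.image_univ, Set.mem_range] at hx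
      obtain ⟨i, hi⟩ := hx
      exact ⟨i, Subtype.ext hi⟩
  let e := Equiv.ofBijective _ hbij
  have he : ∀ i, ((e i : V)) = g i := fun i => rfl
  refine ⟨SimpleGraph.Iso.symm ⟨e, ?_⟩⟩
  intro i j
  show G.Adj (e i) (e j) ↔ H.Adj i j
  rw [he, he]
  exact hadj i j

theorem exists_path_of_far (hG : G.Connected) {k : ℕ} (hk : 1 ≤ k) {v u : V}
    (h : k - 1 ≤ G.dist v u) : ∃ U ∈ pathSets G k, v ∈ U := by
  classical
  obtain ⟨p, hp, hpl⟩ := hG.exists_path_of_dist v u
  have hd : ∀ i : Fin k, G.dist v (p.getVert i) = i := fun i =>
    dist_getVert hG p hpl i (by have := i.2; omega)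
  have hinj : Function.Injective fun i : Fin k => p.getVert i := by
    intro i j hij
    have h1 := hd i
    have h2 := hd j
    simp only at hij
    rw [hij, h2] at h1
    exact Fin.ext h1.symm
  refine ⟨univ.map ⟨fun i : Fin k => p.getVert i, hinj⟩, ?_, ?_⟩
  · simp only [pathSets, mem_filter, mem_univ, true_and]
    refine iso_of_injective (pathGraph k) (fun i : Fin k => p.getVert i) hinj ?_
    intro i j
    rw [pathGraph_adj]
    constructor
    · intro hadj
      have h1 := hadj.diff_dist_adj (u := v)
      simp only [hd i, hd j] at h1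
      have hne : (i : ℕ) ≠ j := fun h => by
        apply hadj.ne
        simp only [h]
      omega
    · rintro (h1 | h1)
      · have := p.adj_getVert_succ (i := i) (by have := j.2; omega)
        rwa [h1] at this
      · have := (p.adj_getVert_succ (i := j) (by have := i.2; omega)).symm
        rwa [h1] at this
  · simp only [mem_map, mem_univ, true_and]
    exact ⟨⟨0, by omega⟩, by simp⟩

theorem card_sphere (hG : G.Connected) (v : V) (D : ℕ) (hD : ∀ u, G.degree u ≤ D) (i : ℕ) :
    (univ.filter fun u => G.dist v u = i).card ≤ D ^ i := by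
  classical
  induction i with
  | zero =>
    rw [pow_zero, card_le_one]
    intro a ha b hb
    simp only [mem_filter, mem_univ, true_and] at ha hb
    rw [← hG.dist_eq_zero_iff.1 ha, ← hG.dist_eq_zero_iff.1 hb]
  | succ i ih =>
    have hsub : (univ.filter fun u => G.dist v u = i + 1) ⊆
        (univ.filter fun u => G.dist v u = i).biUnion fun u => G.neighborFinset u := by
      intro u hu
      simp only [mem_filter, mem_univ, true_and] at hu
      obtain ⟨p, hp, hpl⟩ := hG.exists_path_of_dist v u
      simp only [mem_biUnion, mem_filter, mem_univ, true_and, mem_neighborFinset]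
      refine ⟨p.getVert i, dist_getVert hG p hpl i (by omega), ?_⟩
      have h1 := p.adj_getVert_succ (i := i) (by omega)
      have h2 : p.getVert (i + 1) = u := by
        rw [← hu, ← hpl]
        exact p.getVert_length
      rwa [h2] at h1
    refine (card_le_card hsub).trans (card_biUnion_le.trans ?_)
    refine (sum_le_card_nsmul _ _ D fun u _ => ?_).trans ?_
    · rw [card_neighborFinset_eq_degree]; exact hD u
    · rw [smul_eq_mul, pow_succ]
      exact Nat.mul_le_mul_right _ ih

theorem card_le_of_near (hG : G.Connected) {k : ℕ} (hk : 2 ≤ k) (v : V)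
    (h : ∀ u, G.dist v u < k - 1) (D : ℕ) (hD1 : 1 ≤ D) (hD : ∀ u, G.degree u ≤ D) :
    Fintype.card V ≤ (k - 1) * D ^ (k - 2) := by
  classical
  have hsub : (univ : Finset V) ⊆ (range (k - 1)).biUnion fun i =>
      univ.filter fun u => G.dist v u = i := by
    intro u _
    simp only [mem_biUnion, mem_range, mem_filter, mem_univ, true_and]
    exact ⟨_, h u, rfl⟩
  calc Fintype.card V = (univ : Finset V).card := rfl
    _ ≤ _ := (card_le_card hsub).trans card_biUnion_le
    _ ≤ (range (k - 1)).card • D ^ (k - 2) := by
        refine sum_le_card_nsmul _ _ _ fun i hi => ?_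
        rw [mem_range] at hi
        exact (card_sphere hG v D hD i).trans (Nat.pow_le_pow_right hD1 (by omega))
    _ = _ := by rw [card_range, smul_eq_mul]

end Pool.Agent.Helper1K9.TreeProfile
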