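import Pool.Agent.Helper1K9.TreeProfileB

/-! The main inequality for trees. -/

set_option autoImplicit false

open Finset SimpleGraph

namespace Pool.Agent.Helper1K9.TreeProfile

/-- The constant `2 ^ (k-1) (k-1)!`. -/
def c1 (k : ℕ) : ℕ := 2 ^ (k - 1) * (k - 1).factorial

theorem pow_le_choose' {k d : ℕ} (hk : 1 ≤ k) (hd : 2 * k ≤ d) :
    d ^ (k - 1) ≤ c1 k * d.choose (k - 1) := by
  have h1 : d ≤ 2 * (d + 1 - (k - 1)) := by omega
  calc d ^ (k - 1) ≤ (2 * (d + 1 - (k - 1))) ^ (k - 1) := Nat.pow_le_pow_left h1 _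
    _ = 2 ^ (k - 1) * (d + 1 - (k - 1)) ^ (k - 1) := by rw [mul_pow]
    _ ≤ 2 ^ (k - 1) * d.descFactorial (k - 1) :=
        Nat.mul_le_mul_left _ (Nat.pow_sub_le_descFactorial d (k - 1))
    _ = c1 k * d.choose (k - 1) := by
        rw [Nat.descFactorial_eq_factorial_mul_choose, c1, mul_assoc]

theorem pow_le_add {k : ℕ} (hk : 1 ≤ k) (d : ℕ) :
    d ^ (k - 1) ≤ c1 k * d.choose (k - 1) + (2 * k) ^ (k - 1) := by
  by_cases hd : 2 * k ≤ d
  · exact (pow_le_choose' hk hd).trans (Nat.le_add_right _ _)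
  · exact (Nat.pow_le_pow_left (by omega) _).trans (Nat.le_add_left _ _)

variable {V : Type} [Fintype V] [DecidableEq V] (G : SimpleGraph V) [DecidableRel G.Adj]

theorem sum_pow_le (k : ℕ) (hk : 1 ≤ k) :
    ∑ v, G.degree v ^ (k - 1) ≤
      c1 k * (k * (starSets G k).card) + (2 * k) ^ (k - 1) * Fintype.card V := by
  calc ∑ v, G.degree v ^ (k - 1)
      ≤ ∑ v, (c1 k * (G.degree v).choose (k - 1) + (2 * k) ^ (k - 1)) :=
        sum_le_sum fun v _ => pow_le_add hk _
    _ = c1 k * ∑ v, (G.degree v).choose (k - 1) + (2 * k) ^ (k - 1) * Fintype.card V := by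
        rw [sum_add_distrib, mul_sum, sum_const, smul_eq_mul, card_univ,
          mul_comm (Fintype.card V)]
    _ ≤ _ := Nat.add_le_add_right (Nat.mul_le_mul_left _ (sum_choose_le G k hk)) _

theorem sum_pow_le' (k M : ℕ) (hk : 2 ≤ k) :
    M * ∑ v, G.degree v ^ (k - 2) ≤
      ∑ v, G.degree v ^ (k - 1) + M ^ (k - 1) * Fintype.card V := by
  have h : ∀ d : ℕ, M * d ^ (k - 2) ≤ d ^ (k - 1) + M ^ (k - 1) := by
    intro d
    obtain ⟨j, rfl⟩ : ∃ j, k = j + 2 := ⟨k - 2, by omega⟩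
    have e1 : j + 2 - 2 = j := by omega
    have e2 : j + 2 - 1 = j + 1 := by omega
    rw [e1, e2]
    rcases le_total M d with h | h
    · calc M * d ^ j ≤ d * d ^ j := Nat.mul_le_mul_right _ h
        _ = d ^ (j + 1) := by ring
        _ ≤ _ := Nat.le_add_right _ _
    · calc M * d ^ j ≤ M * M ^ j := Nat.mul_le_mul_left _ (Nat.pow_le_pow_left h _)
        _ = M ^ (j + 1) := by ring
        _ ≤ _ := Nat.le_add_left _ _
  calc M * ∑ v, G.degree v ^ (k - 2) = ∑ v, M * G.degree v ^ (k - 2) := mul_sum _ _ _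
    _ ≤ ∑ v, (G.degree v ^ (k - 1) + M ^ (k - 1)) := sum_le_sum fun v _ => h _
    _ = _ := by
        rw [sum_add_distrib, sum_const, smul_eq_mul, card_univ, mul_comm (M ^ (k - 1))]

/-- A large tree either has many paths or few vertices compared with its stars. -/
theorem few_vertices (k : ℕ) (hk : 4 ≤ k) (η : ℝ) (hη : 0 < η) :
    ∃ N : ℕ, ∀ (V : Type) [Fintype V] [DecidableEq V] (G : SimpleGraph V) [DecidableRel G.Adj],
      G.IsTree → N ≤ Fintype.card V →
      Fintype.card V ≤ k * (pathSets G k).card ∨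
        (Fintype.card V : ℝ) ≤ η * (starSets G k).card := by
  obtain ⟨D0, hD0⟩ := exists_nat_ge (((k - 1 : ℕ) * c1 k * k : ℝ) / η)
  refine ⟨(k - 1) * (max D0 (2 * k)) ^ (k - 2) + 2, ?_⟩
  intro V _ _ G _ hG hN
  by_cases hall : ∀ v, ∃ U ∈ pathSets G k, v ∈ U
  · left
    exact card_le_paths G k hall
  · right
    push Not at hall
    obtain ⟨v, hv⟩ := hall
    have hnear : ∀ u, G.dist v u < k - 1 := by
      intro u
      by_contra h
      push Not at h
      obtain ⟨U, hU, hvU⟩ := exists_path_of_far hG.connected (by omega : 1 ≤ k) h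
      exact hv U hU hvU
    have hD1 : 1 ≤ G.maxDegree := by
      have : Nontrivial V := by
        rw [← Fintype.one_lt_card_iff_nontrivial]; omega
      have h1 := G.degree_le_maxDegree v
      have h2 := hG.connected.preconnected.degree_pos_of_nontrivial v
      omega
    have hn := card_le_of_near hG.connected (by omega : 2 ≤ k) v hnear G.maxDegree hD1
      (fun u => G.degree_le_maxDegree u)
    have hD : max D0 (2 * k) ≤ G.maxDegree := by
      by_contra h
      push Not at h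
      have := Nat.pow_le_pow_left h.le (k - 2)
      have := Nat.mul_le_mul_left (k - 1) this
      omega
    have hD2 : 2 * k ≤ G.maxDegree := (le_max_right _ _).trans hD
    have hD3 : D0 ≤ G.maxDegree := (le_max_left _ _).trans hD
    have : Nonempty V := ⟨v⟩
    obtain ⟨w, hw⟩ := G.exists_maximal_degree_vertex
    have hs : (G.maxDegree).choose (k - 1) ≤ k * (starSets G k).card := by
      refine le_trans ?_ (sum_choose_le G k (by omega))
      rw [hw]
      exact single_le_sum (f := fun v => (G.degree v).choose (k - 1))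
        (fun _ _ => Nat.zero_le _) (mem_univ w)
    have h1 := pow_le_choose' (by omega : 1 ≤ k) hD2
    have h2 : Fintype.card V * G.maxDegree ≤ (k - 1) * c1 k * k * (starSets G k).card := by
      calc Fintype.card V * G.maxDegree ≤ (k - 1) * G.maxDegree ^ (k - 2) * G.maxDegree :=
            Nat.mul_le_mul_right _ hn
        _ = (k - 1) * G.maxDegree ^ (k - 1) := by
            have : k - 1 = k - 2 + 1 := by omega
            rw [mul_assoc, ← pow_succ, ← this]
        _ ≤ (k - 1) * (c1 k * (k * (starSets G k).card)) := by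
            apply Nat.mul_le_mul_left
            exact h1.trans (Nat.mul_le_mul_left _ hs)
        _ = _ := by ring
    have h3 : (Fintype.card V : ℝ) * G.maxDegree ≤
        ((k - 1 : ℕ) * c1 k * k : ℝ) * (starSets G k).card := by exact_mod_cast h2
    have hc : (0 : ℝ) < ((k - 1 : ℕ) * c1 k * k : ℝ) := by
      have h1 : 0 < k - 1 := by omega
      have h2 : 0 < k := by omega
      have h3 : 0 < c1 k := by unfold c1; positivity
      positivity
    have h4 : ((k - 1 : ℕ) * c1 k * k : ℝ) / η ≤ G.maxDegree :=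
      hD0.trans (by exact_mod_cast hD3)
    have h5 : (Fintype.card V : ℝ) * (((k - 1 : ℕ) * c1 k * k : ℝ) / η) ≤
        ((k - 1 : ℕ) * c1 k * k : ℝ) * (starSets G k).card :=
      (mul_le_mul_of_nonneg_left h4 (by positivity)).trans h3
    rw [← mul_div_assoc, div_le_iff₀ hη] at h5
    have h6 : ((k - 1 : ℕ) * c1 k * k : ℝ) * (Fintype.card V : ℝ) ≤
        ((k - 1 : ℕ) * c1 k * k : ℝ) * (η * (starSets G k).card) := by
      linarith
    exact le_of_mul_le_mul_left h6 hc

/-- The number of connected sets of `k` vertices of a large tree is at most `(1 + ε)` times the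
number of stars plus a constant times the number of paths. -/
theorem main_ineq (k : ℕ) (hk : 4 ≤ k) (ε : ℝ) (hε : 0 < ε) :
    ∃ (C : ℝ) (N : ℕ), 0 ≤ C ∧ ∀ (V : Type) [Fintype V] [DecidableEq V] (G : SimpleGraph V)
      [DecidableRel G.Adj], G.IsTree → N ≤ Fintype.card V →
      ((connSets G k).card : ℝ) ≤ (1 + ε) * (starSets G k).card + C * (pathSets G k).card := by
  obtain ⟨m0, hm0⟩ := exists_nat_ge ((6 * (k : ℝ) ^ (k - 1) * c1 k) / ε)
  set m := m0 + 1 with hm
  have hm1 : 1 ≤ m := by omega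
  have hmR : (0 : ℝ) < m := by exact_mod_cast hm1
  set M := m ^ (k - 1) with hM
  set C2 : ℝ := 3 * (k : ℝ) ^ (k - 2) * (2 * k) ^ (k - 1) + 2 * (k : ℝ) ^ (k - 2) * (M : ℝ) ^ (k - 1)
    with hC2
  have hk0 : (0 : ℝ) < k := by
    have : 0 < k := by omega
    exact_mod_cast this
  have hC2pos : 0 < C2 := by positivity
  obtain ⟨N, hN⟩ := few_vertices k hk (ε / (2 * C2)) (by positivity)
  refine ⟨C2 * k, N, by positivity, ?_⟩
  intro V _ _ G _ hG hn
  have hZ : (connSets G k).card ≤ (starSets G k).card + ((famA G k m).card + (famB G k m).card) := by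
    refine (card_le_card (connSets_subset G k m (by omega))).trans ?_
    refine (card_union_le _ _).trans (Nat.add_le_add_left (card_union_le _ _) _)
  have hA := card_famA G k m (by omega)
  have hB := card_famB hG k m (by omega) hm1
  have hT1 := sum_pow_le G k (by omega)
  have hT2 := sum_pow_le' G k M (by omega)
  set s : ℝ := ((starSets G k).card : ℝ) with hs
  set P : ℝ := ((pathSets G k).card : ℝ) with hP
  set n : ℝ := (Fintype.card V : ℝ) with hnn
  set T1 : ℝ := ∑ v, (G.degree v : ℝ) ^ (k - 1) with hT1d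
  set T2 : ℝ := ∑ v, (G.degree v : ℝ) ^ (k - 2) with hT2d
  have hs0 : 0 ≤ s := by positivity
  have hP0 : 0 ≤ P := by positivity
  have hn0 : 0 ≤ n := by positivity
  have hT10 : 0 ≤ T1 := by positivity
  have hZR : ((connSets G k).card : ℝ) ≤ s + ((famA G k m).card + (famB G k m).card) := by
    rw [hs]; exact_mod_cast hZ
  have hAR : (m : ℝ) * (famA G k m).card ≤ (k : ℝ) ^ (k - 3) * T1 := by
    rw [hT1d]; exact_mod_cast hA
  have hT1R : T1 ≤ c1 k * (k * s) + (2 * k) ^ (k - 1) * n := by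
    rw [hT1d, hs, hnn]; exact_mod_cast hT1
  have hT2R : (M : ℝ) * T2 ≤ T1 + (M : ℝ) ^ (k - 1) * n := by
    rw [hT1d, hT2d, hnn]; exact_mod_cast hT2
  have hBR : ((famB G k m).card : ℝ) ≤ 2 * ((k * m : ℝ) ^ (k - 2) * T2) := by
    have h1 : ((famB G k m).card : ℝ) ≤ 2 * ∑ c, ((k : ℝ) * (m * G.degree c)) ^ (k - 2) := by
      exact_mod_cast hB
    refine h1.trans (le_of_eq ?_)
    have h2 : ∑ c, ((k : ℝ) * (m * G.degree c)) ^ (k - 2) =
        (k * m : ℝ) ^ (k - 2) * ∑ v, (G.degree v : ℝ) ^ (k - 2) := by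
      rw [mul_sum]
      refine sum_congr rfl fun c _ => ?_
      rw [← mul_pow, mul_assoc]
    rw [hT2d, h2]
  -- case A
  have hA' : ((famA G k m).card : ℝ) ≤ (k : ℝ) ^ (k - 2) / m * T1 := by
    rw [div_mul_eq_mul_div, le_div_iff₀ hmR]
    have h1 : (k : ℝ) ^ (k - 3) ≤ (k : ℝ) ^ (k - 2) := by
      apply pow_le_pow_right₀
      · have : 1 ≤ k := by omega
        exact_mod_cast this
      · omega
    calc ((famA G k m).card : ℝ) * m = m * (famA G k m).card := by ring
      _ ≤ (k : ℝ) ^ (k - 3) * T1 := hAR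
      _ ≤ (k : ℝ) ^ (k - 2) * T1 := mul_le_mul_of_nonneg_right h1 hT10
  -- case B
  have hB' : ((famB G k m).card : ℝ) ≤
      2 * (k : ℝ) ^ (k - 2) / m * (T1 + (M : ℝ) ^ (k - 1) * n) := by
    have hMm : (M : ℝ) = m * (m : ℝ) ^ (k - 2) := by
      rw [hM]
      push_cast
      rw [← pow_succ']
      congr 1
      omega
    have h1 : (m : ℝ) * ((k * m : ℝ) ^ (k - 2) * T2) ≤
        (k : ℝ) ^ (k - 2) * (T1 + (M : ℝ) ^ (k - 1) * n) := by
      calc (m : ℝ) * ((k * m : ℝ) ^ (k - 2) * T2) = (k : ℝ) ^ (k - 2) * (M * T2) := by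
            rw [hMm, mul_pow]; ring
        _ ≤ _ := mul_le_mul_of_nonneg_left hT2R (by positivity)
    rw [div_mul_eq_mul_div, le_div_iff₀ hmR]
    nlinarith [hBR]
  have hsmall : 3 * (k : ℝ) ^ (k - 2) / m * (c1 k * (k * s)) ≤ ε / 2 * s := by
    have h1 : 6 * (k : ℝ) ^ (k - 1) * c1 k ≤ ε * m := by
      rw [div_le_iff₀ hε] at hm0
      have : (m : ℝ) = m0 + 1 := by rw [hm]; push_cast; ring
      rw [this]
      nlinarith
    have h2 : (k : ℝ) ^ (k - 1) = (k : ℝ) ^ (k - 2) * k := by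
      rw [← pow_succ]; congr 1; omega
    rw [h2] at h1
    rw [div_mul_eq_mul_div, div_le_iff₀ hmR]
    nlinarith [mul_le_mul_of_nonneg_right h1 hs0]
  have hm1R : (1 : ℝ) ≤ m := by exact_mod_cast hm1
  have hx : 3 * (k : ℝ) ^ (k - 2) / m ≤ 3 * (k : ℝ) ^ (k - 2) := by
    apply div_le_self (by positivity) hm1R
  have hy : 2 * (k : ℝ) ^ (k - 2) / m ≤ 2 * (k : ℝ) ^ (k - 2) := by
    apply div_le_self (by positivity) hm1R
  have hAB : ((famA G k m).card : ℝ) + (famB G k m).card ≤ ε / 2 * s + C2 * n := by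
    have e1 : ((famA G k m).card : ℝ) + (famB G k m).card ≤
        3 * (k : ℝ) ^ (k - 2) / m * T1 + 2 * (k : ℝ) ^ (k - 2) / m * ((M : ℝ) ^ (k - 1) * n) := by
      have : 3 * (k : ℝ) ^ (k - 2) / m * T1 =
        (k : ℝ) ^ (k - 2) / m * T1 + 2 * (k : ℝ) ^ (k - 2) / m * T1 := by ring
      rw [this]
      linarith [hA', hB', mul_add (2 * (k : ℝ) ^ (k - 2) / m) T1 ((M : ℝ) ^ (k - 1) * n)]
    have e2 : 3 * (k : ℝ) ^ (k - 2) / m * T1 ≤
        3 * (k : ℝ) ^ (k - 2) / m * (c1 k * (k * s)) +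
          3 * (k : ℝ) ^ (k - 2) / m * ((2 * k) ^ (k - 1) * n) := by
      rw [← mul_add]
      exact mul_le_mul_of_nonneg_left hT1R (by positivity)
    have e3 : 3 * (k : ℝ) ^ (k - 2) / m * ((2 * k) ^ (k - 1) * n) ≤
        3 * (k : ℝ) ^ (k - 2) * ((2 * k) ^ (k - 1) * n) :=
      mul_le_mul_of_nonneg_right hx (by positivity)
    have e4 : 2 * (k : ℝ) ^ (k - 2) / m * ((M : ℝ) ^ (k - 1) * n) ≤
        2 * (k : ℝ) ^ (k - 2) * ((M : ℝ) ^ (k - 1) * n) :=
      mul_le_mul_of_nonneg_right hy (by positivity)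
    have e5 : C2 * n = 3 * (k : ℝ) ^ (k - 2) * ((2 * k) ^ (k - 1) * n) +
        2 * (k : ℝ) ^ (k - 2) * ((M : ℝ) ^ (k - 1) * n) := by
      rw [hC2]; ring
    linarith
  have hfew : C2 * n ≤ C2 * k * P + ε / 2 * s := by
    rcases hN V G hG hn with h | h
    · have h1 : n ≤ k * P := by rw [hnn, hP]; exact_mod_cast h
      have h2 : C2 * n ≤ C2 * (k * P) := mul_le_mul_of_nonneg_left h1 hC2pos.le
      have h3 : 0 ≤ ε / 2 * s := by positivity
      linarith
    · have h2 : C2 * n ≤ C2 * (ε / (2 * C2) * s) := mul_le_mul_of_nonneg_left h hC2pos.le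
      have h3 : C2 * (ε / (2 * C2) * s) = ε / 2 * s := by field_simp
      have h4 : 0 ≤ C2 * k * P := by positivity
      linarith
  linarith

end Pool.Agent.Helper1K9.TreeProfile
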