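import Pool.Agent.Helper1K9.TreeProfileC

/-!
# If the path density of large trees vanishes then the star density tends to one

For `k ≥ 4` and `ε > 0` there is a constant `C` such that every large tree satisfies
`Z ≤ (1 + ε) S + C P`, where `Z`, `S`, `P` are the numbers of connected `k`-sets, stars and paths.
A connected `k`-set `U` which is not a star contains a vertex `w` of largest degree and a path
`w y z`. If the degree of `y` is small compared with the degree of `w` there are few such sets for
given `w`. Otherwise one charges `U` to the lower endpoint of the edge `w y` of the rooted tree and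
gains a factor equal to its degree. What is left is bounded by the number of vertices, and in a large
tree either every vertex lies on a path with `k` vertices or the tree has small diameter and a vertex
of very large degree.
-/

set_option autoImplicit false

open Finset SimpleGraph Filter Topology

namespace Pool.Agent.Helper1K9.TreeProfileD

open Pool.Agent.Helper1K9.TreeProfile

open Classical in
/-- The number `c(H, G)` of copies of `H` in `G`: the number of sets of vertices of `G` which induce a
subgraph isomorphic to `H`. -/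
noncomputable def copies {k n : ℕ} (H : SimpleGraph (Fin k)) (G : SimpleGraph (Fin n)) : ℕ :=
  (univ.filter fun U : Finset (Fin n) => Nonempty (G.induce (U : Set (Fin n)) ≃g H)).card

/-- A list `T₁, …, T_N` of the isomorphism types of trees with `k` vertices. -/
structure Listing (k : ℕ) where
  /-- the number of types -/
  N : ℕ
  /-- the trees -/
  T : Fin N → SimpleGraph (Fin k)
  /-- they are trees -/
  tree : ∀ i, (T i).IsTree
  /-- they are pairwise non-isomorphic -/
  distinct : ∀ i j, Nonempty (T i ≃g T j) → i = j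
  /-- every tree with `k` vertices is isomorphic to one of them -/
  complete : ∀ H : SimpleGraph (Fin k), H.IsTree → ∃ i, Nonempty (H ≃g T i)

/-- The `k`-profile of `G`: its `i`-th coordinate is `c(T_i, G) / Z_k(G)` with
`Z_k(G) = ∑ j, c(T_j, G)`. -/
noncomputable def profile {k : ℕ} (L : Listing k) {n : ℕ} (G : SimpleGraph (Fin n)) :
    Fin L.N → ℝ :=
  fun i => (copies (L.T i) G : ℝ) / ((∑ j, copies (L.T j) G : ℕ) : ℝ)

/-- The limit set of `k`-profiles of trees. -/
def limitSet {k : ℕ} (L : Listing k) : Set (Fin L.N → ℝ) :=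
  {p | ∃ (n : ℕ → ℕ) (G : ∀ m, SimpleGraph (Fin (n m))), (∀ m, (G m).IsTree) ∧
    Tendsto n atTop atTop ∧ Tendsto (fun m => profile L (G m)) atTop (𝓝 p)}

theorem exists_listing (k : ℕ) : Nonempty (Listing k) := by
  classical
  let s : Setoid {H : SimpleGraph (Fin k) // H.IsTree} :=
    ⟨fun A B => Nonempty (A.1 ≃g B.1), fun A => ⟨Iso.refl⟩, fun ⟨e⟩ => ⟨e.symm⟩,
      fun ⟨e⟩ ⟨f⟩ => ⟨f.comp e⟩⟩
  let _ : Fintype (Quotient s) := Fintype.ofFinite _
  let e := Fintype.equivFin (Quotient s)
  refine ⟨⟨Fintype.card (Quotient s), fun i => (Quotient.out (e.symm i)).1,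
    fun i => (Quotient.out (e.symm i)).2, ?_, ?_⟩⟩
  · intro i j h
    have h1 : Quotient.out (e.symm i) ≈ Quotient.out (e.symm j) := h
    have h2 := Quotient.out_equiv_out.1 h1
    exact e.symm.injective h2
  · intro H hH
    refine ⟨e (Quotient.mk s ⟨H, hH⟩), ?_⟩
    rw [e.symm_apply_apply]
    have h1 : Quotient.out (Quotient.mk s ⟨H, hH⟩) ≈ ⟨H, hH⟩ := Quotient.mk_out _
    obtain ⟨f⟩ := h1
    exact ⟨f.symm⟩

theorem total_le {k n : ℕ} (L : Listing k) (G : SimpleGraph (Fin n)) [DecidableRel G.Adj] :
    ∑ j, copies (L.T j) G ≤ (connSets G k).card := by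
  classical
  unfold copies
  rw [← card_biUnion]
  · apply card_le_card
    intro U hU
    simp only [mem_biUnion, mem_univ, true_and, mem_filter] at hU
    obtain ⟨j, ⟨e⟩⟩ := hU
    simp only [connSets, mem_filter, mem_univ, true_and]
    refine ⟨?_, ?_⟩
    · have := Fintype.card_congr e.toEquiv
      simpa using this
    · exact e.connected_iff.2 (L.tree j).connected
  · intro i _ j _ hij
    refine Finset.disjoint_left.2 ?_
    intro U hU hU'
    simp only [mem_filter, mem_univ, true_and] at hU hU'
    obtain ⟨e⟩ := hU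
    obtain ⟨f⟩ := hU'
    exact hij (L.distinct i j ⟨f.comp e.symm⟩)

theorem star_le {k n : ℕ} (hk : 2 ≤ k) {G : SimpleGraph (Fin n)} [DecidableRel G.Adj]
    (hG : G.IsTree) (H : SimpleGraph (Fin k))
    (hH : Nonempty (H ≃g completeBipartiteGraph (Fin 1) (Fin (k - 1)))) :
    (starSets G k).card ≤ copies H G := by
  classical
  unfold copies
  apply card_le_card
  intro U hU
  simp only [starSets, mem_filter, mem_univ, true_and] at hU
  obtain ⟨hcard, w, hw, hadj⟩ := hU
  simp only [mem_filter, mem_univ, true_and]
  have hc : (U.erase w).card = k - 1 := by rw [card_erase_of_mem hw, hcard]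
  let e := (U.erase w).equivFinOfCardEq hc
  have he : ∀ i, ((e.symm i : Fin n) ∈ U ∧ (e.symm i : Fin n) ≠ w) := by
    intro i
    have := (e.symm i).2
    rw [mem_erase] at this
    exact ⟨this.2, this.1⟩
  let g : Fin 1 ⊕ Fin (k - 1) → Fin n := Sum.elim (fun _ => w) (fun i => (e.symm i : Fin n))
  have hinj : Function.Injective g := by
    rintro (i | i) (j | j) h
    · exact congrArg Sum.inl (Subsingleton.elim _ _)
    · exact absurd h (he j).2.symm
    · exact absurd h (he i).2
    · have : e.symm i = e.symm j := Subtype.ext h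
      rw [e.symm.injective this]
  have hA : ∀ i j, G.Adj (g i) (g j) ↔
      (completeBipartiteGraph (Fin 1) (Fin (k - 1))).Adj i j := by
    rintro (i | i) (j | j)
    · simp [g, completeBipartiteGraph]
    · have := hadj _ (he j).1 (he j).2
      simpa [g, completeBipartiteGraph] using this
    · have := (hadj _ (he i).1 (he i).2).symm
      simpa [g, completeBipartiteGraph] using this
    · have : ¬ G.Adj (e.symm i : Fin n) (e.symm j : Fin n) := by
        intro h
        have h3 := hG.isAcyclic.cliqueFree (le_refl 3)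
        apply h3 {w, (e.symm i : Fin n), (e.symm j : Fin n)}
        rw [is3Clique_triple_iff]
        exact ⟨hadj _ (he i).1 (he i).2, hadj _ (he j).1 (he j).2, h⟩
      simpa [g, completeBipartiteGraph] using this
  have hmap : (univ.map ⟨g, hinj⟩ : Finset (Fin n)) = U := by
    apply eq_of_subset_of_card_le
    · intro x hx
      simp only [Finset.mem_map, mem_univ, true_and, Function.Embedding.coeFn_mk] at hx
      obtain ⟨i | i, rfl⟩ := hx
      · exact hw
      · exact (he i).1
    · rw [card_map, hcard]
      simp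
      omega
  obtain ⟨f⟩ := hH
  obtain ⟨f'⟩ := iso_of_injective (completeBipartiteGraph (Fin 1) (Fin (k - 1))) g hinj hA
  rw [hmap] at f'
  exact ⟨f.symm.comp f'⟩

theorem path_le {k n : ℕ} {G : SimpleGraph (Fin n)} [DecidableRel G.Adj]
    (H : SimpleGraph (Fin k)) (hH : Nonempty (H ≃g pathGraph k)) :
    (pathSets G k).card ≤ copies H G := by
  classical
  unfold copies
  apply card_le_card
  intro U hU
  simp only [pathSets, mem_filter, mem_univ, true_and] at hU ⊢
  obtain ⟨e⟩ := hU
  obtain ⟨f⟩ := hH
  exact ⟨f.symm.comp e⟩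

/-- For every `k ≥ 4` and every `p` in the limit set of `k`-profiles of trees, if the path density of
`p` is `0` then its star density is `1`. (The isomorphism types of trees with `k` vertices can be
listed; `i₁` is the index of the path and `i₂` that of the star `K_{1,k-1}`.) -/
theorem result :
    (∀ k : ℕ, Nonempty (Listing k)) ∧
    ∀ k : ℕ, 4 ≤ k → ∀ (L : Listing k) (i₁ i₂ : Fin L.N), Nonempty (L.T i₁ ≃g pathGraph k) →
      Nonempty (L.T i₂ ≃g completeBipartiteGraph (Fin 1) (Fin (k - 1))) →
      ∀ p ∈ limitSet L, p i₁ = 0 → p i₂ = 1 := by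
  classical
  refine ⟨exists_listing, ?_⟩
  intro k hk L i₁ i₂ h1 h2 p hp hp1
  obtain ⟨n, G, hG, hn, hlim⟩ := hp
  have hlim1 : Tendsto (fun m => profile L (G m) i₁) atTop (𝓝 0) := by
    rw [← hp1]
    exact (continuous_apply i₁).continuousAt.tendsto.comp hlim
  have hlim2 : Tendsto (fun m => profile L (G m) i₂) atTop (𝓝 (p i₂)) :=
    (continuous_apply i₂).continuousAt.tendsto.comp hlim
  obtain ⟨N0, hN0⟩ := few_vertices k hk 1 one_pos
  have hpos : ∀ᶠ m in atTop, 0 < ∑ j, copies (L.T j) (G m) := by
    filter_upwards [hn.eventually_ge_atTop (N0 + 1)] with m hm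
    have hS := star_le (by omega : 2 ≤ k) (hG m) (L.T i₂) h2
    have hP := path_le (G := G m) (L.T i₁) h1
    have hle1 : copies (L.T i₁) (G m) ≤ ∑ j, copies (L.T j) (G m) :=
      single_le_sum (f := fun j => copies (L.T j) (G m)) (fun _ _ => Nat.zero_le _) (mem_univ i₁)
    have hle2 : copies (L.T i₂) (G m) ≤ ∑ j, copies (L.T j) (G m) :=
      single_le_sum (f := fun j => copies (L.T j) (G m)) (fun _ _ => Nat.zero_le _) (mem_univ i₂)
    by_contra h0
    have h0' : ∑ j, copies (L.T j) (G m) = 0 := by omega
    rcases hN0 (Fin (n m)) (G m) (hG m) (by rw [Fintype.card_fin]; omega) with h | h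
    · have : (pathSets (G m) k).card = 0 := by omega
      rw [this, Fintype.card_fin] at h
      omega
    · have : (starSets (G m) k).card = 0 := by omega
      rw [this, Fintype.card_fin] at h
      have : (n m : ℝ) ≤ 0 := by simpa using h
      have h3 : (N0 + 1 : ℕ) ≤ n m := hm
      have h4 : ((N0 + 1 : ℕ) : ℝ) ≤ n m := by exact_mod_cast h3
      push_cast at h4
      have h5 : (0 : ℝ) ≤ N0 := by positivity
      linarith
  have hle : p i₂ ≤ 1 := by
    refine le_of_tendsto hlim2 ?_
    filter_upwards [hpos] with m hm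
    unfold profile
    have hle2 : copies (L.T i₂) (G m) ≤ ∑ j, copies (L.T j) (G m) :=
      single_le_sum (f := fun j => copies (L.T j) (G m)) (fun _ _ => Nat.zero_le _) (mem_univ i₂)
    rw [div_le_one (by exact_mod_cast hm)]
    exact_mod_cast hle2
  have hge : ∀ ε : ℝ, 0 < ε → 1 ≤ (1 + ε) * p i₂ := by
    intro ε hε
    obtain ⟨C, N, hC, hmain⟩ := main_ineq k hk ε hε
    have hlim3 : Tendsto (fun m => (1 + ε) * profile L (G m) i₂ + C * profile L (G m) i₁) atTop
        (𝓝 ((1 + ε) * p i₂ + C * 0)) :=
      (hlim2.const_mul _).add (hlim1.const_mul _)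
    rw [mul_zero, add_zero] at hlim3
    refine ge_of_tendsto hlim3 ?_
    filter_upwards [hpos, hn.eventually_ge_atTop N] with m hm hmN
    have hZ : (0 : ℝ) < ((∑ j, copies (L.T j) (G m) : ℕ) : ℝ) := by exact_mod_cast hm
    have h3 := hmain (Fin (n m)) (G m) (hG m) (by rw [Fintype.card_fin]; exact hmN)
    have hT : ((∑ j, copies (L.T j) (G m) : ℕ) : ℝ) ≤ (connSets (G m) k).card := by
      exact_mod_cast total_le L (G m)
    have hS : ((starSets (G m) k).card : ℝ) ≤ copies (L.T i₂) (G m) := by
      exact_mod_cast star_le (by omega : 2 ≤ k) (hG m) (L.T i₂) h2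
    have hP : ((pathSets (G m) k).card : ℝ) ≤ copies (L.T i₁) (G m) := by
      exact_mod_cast path_le (G := G m) (L.T i₁) h1
    have h4 : ((∑ j, copies (L.T j) (G m) : ℕ) : ℝ) ≤
        (1 + ε) * copies (L.T i₂) (G m) + C * copies (L.T i₁) (G m) := by
      have h5 : (1 + ε) * ((starSets (G m) k).card : ℝ) ≤ (1 + ε) * copies (L.T i₂) (G m) :=
        mul_le_mul_of_nonneg_left hS (by linarith)
      have h6 : C * ((pathSets (G m) k).card : ℝ) ≤ C * copies (L.T i₁) (G m) :=
        mul_le_mul_of_nonneg_left hP hC
      linarith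
    unfold profile
    rw [← mul_div_assoc, ← mul_div_assoc, ← add_div, le_div_iff₀ hZ, one_mul]
    exact h4
  apply le_antisymm hle
  by_contra hlt
  push Not at hlt
  rcases le_or_gt (p i₂) 0 with h0 | h0
  · have := hge 1 one_pos
    linarith
  · have := hge ((1 - p i₂) / (2 * p i₂)) (by apply div_pos <;> linarith)
    have h5 : (1 + (1 - p i₂) / (2 * p i₂)) * p i₂ = (1 + p i₂) / 2 := by
      field_simp
      ring
    rw [h5] at this
    linarith

end Pool.Agent.Helper1K9.TreeProfileD
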